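import Pool.Agent.ZAR.Stmts

/-!
# ZAR, rows GDF and GVK
-/

set_option autoImplicit false

namespace Pool.Agent.ZAR.H32

open Pool.Agent.ZAR

theorem gdf : GDFStmt := by
  intro K L _ _ _ n u hu N B hB
  let MM : Matrix (Fin n) (Fin (n + 1)) (MvPolynomial (Fin n × Fin (n + 1)) K) :=
    Matrix.of fun i j => MvPolynomial.X (i, j)
  let NN : Matrix (Fin (n + 1)) (Fin n) (MvPolynomial (Fin n × Fin (n + 1)) K) :=
    N.map MvPolynomial.C
  have h1 : MvPolynomial.eval (fun p : Fin n × Fin (n + 1) => B p.1 p.2) (MM * NN).det =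
      (B * N).det := by
    rw [RingHom.map_det, RingHom.mapMatrix_apply, Matrix.map_mul]
    have e1 : MM.map (MvPolynomial.eval (fun p : Fin n × Fin (n + 1) => B p.1 p.2)) = B := by
      ext i j
      exact MvPolynomial.eval_X _
    have e2 : NN.map (MvPolynomial.eval (fun p : Fin n × Fin (n + 1) => B p.1 p.2)) = N := by
      ext i j
      exact MvPolynomial.eval_C _
    rw [e1, e2]
  have h2 : (MM * NN).det ≠ 0 := by
    intro h
    rw [h, map_zero] at h1
    exact hB h1.symm
  have h3 : MvPolynomial.aeval (fun p : Fin n × Fin (n + 1) => u p.1 p.2) (MM * NN).det =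
      (Matrix.of u * N.map (algebraMap K L)).det := by
    rw [AlgHom.map_det, AlgHom.mapMatrix_apply, Matrix.map_mul]
    have e1 : MM.map (MvPolynomial.aeval (R := K) (fun p : Fin n × Fin (n + 1) => u p.1 p.2)) =
        Matrix.of u := by
      ext i j
      exact MvPolynomial.aeval_X _ _
    have e2 : NN.map (MvPolynomial.aeval (R := K) (fun p : Fin n × Fin (n + 1) => u p.1 p.2)) =
        N.map (algebraMap K L) := by
      ext i j
      exact MvPolynomial.aeval_C _ _
    rw [e1, e2]
  rw [← h3]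
  intro h
  apply h2
  have h4 : Function.Injective (MvPolynomial.aeval
      (fun p : Fin n × Fin (n + 1) => u p.1 p.2) : MvPolynomial _ K →ₐ[K] L) := hu
  apply h4
  rw [h, map_zero]

theorem kv_ker {L : Type} [Field L] {n : ℕ} (u : Fin n → Fin (n + 1) → L) (i : Fin n) :
    ∑ j, u i j * kv u j = 0 := by
  have h1 := Matrix.det_succ_row_zero (Matrix.of (Fin.cons (u i) u : Fin (n + 1) → Fin (n + 1) → L))
  have h2 : (Matrix.of (Fin.cons (u i) u : Fin (n + 1) → Fin (n + 1) → L)).det = 0 := by
    refine Matrix.det_zero_of_row_eq (i := 0) (j := i.succ) (Fin.succ_ne_zero i).symm ?_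
    rfl
  rw [h2] at h1
  rw [h1]
  refine Finset.sum_congr rfl fun j _ => ?_
  have h3 : ((Matrix.of (Fin.cons (u i) u : Fin (n + 1) → Fin (n + 1) → L)).submatrix
      Fin.succ j.succAbove) = Matrix.of fun i k : Fin n => u i (j.succAbove k) := rfl
  rw [h3]
  unfold kv
  show u i j * ((-1) ^ (j : ℕ) * _) = (-1) ^ (j : ℕ) * u i j * _
  ring

theorem eval_smul {K : Type} [Field K] {m : ℕ} {d : ℕ} {F : MvPolynomial (Fin m) K}
    (hF : F.IsHomogeneous d) (c : K) (v : Fin m → K) :
    MvPolynomial.eval (fun i => c * v i) F = c ^ d * MvPolynomial.eval v F := by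
  rw [MvPolynomial.eval_eq', MvPolynomial.eval_eq', Finset.mul_sum]
  refine Finset.sum_congr rfl fun e he => ?_
  have h1 := hF (MvPolynomial.mem_support_iff.1 he)
  have h2 : ∑ i, e i = d := by
    rw [← h1, Finsupp.weight_apply, Finsupp.sum_fintype]
    · simp
    · intro i; simp
  simp only [mul_pow]
  rw [Finset.prod_mul_distrib, Finset.prod_pow_eq_pow_sum, h2]
  ring

/-- the matrix with kernel vector `v` -/
def Bm {K : Type} [Field K] {n : ℕ} (v : Fin (n + 1) → K) (i : Fin n) (j : Fin (n + 1)) : K :=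
  if j = 0 then - v i.succ else if j = i.succ then v 0 else 0

theorem kv_Bm {K : Type} [Field K] {n : ℕ} (v : Fin (n + 1) → K) (hv : v 0 ≠ 0) :
    ∃ c : K, c ≠ 0 ∧ kv (Bm v) = fun j => c * v j := by
  have h0 : kv (Bm v) 0 = v 0 ^ n := by
    unfold kv
    have h1 : (Matrix.of fun i k : Fin n => Bm v i ((0 : Fin (n + 1)).succAbove k)) =
        Matrix.diagonal (fun _ : Fin n => v 0) := by
      ext i k
      rw [Matrix.of_apply, Fin.zero_succAbove, Matrix.diagonal_apply]
      unfold Bm
      rw [if_neg (Fin.succ_ne_zero k)]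
      by_cases h : i = k
      · rw [if_pos (by rw [h]), if_pos h]
      · rw [if_neg (fun h' => h (Fin.succ_injective _ h').symm), if_neg h]
    rw [h1, Matrix.det_diagonal]
    simp
  refine ⟨v 0 ^ n / v 0, div_ne_zero (pow_ne_zero _ hv) hv, ?_⟩
  funext j
  refine Fin.cases ?_ (fun i => ?_) j
  · rw [h0, div_mul_cancel₀ _ hv]
  · have h1 := kv_ker (Bm v) i
    rw [Fin.sum_univ_succ] at h1
    have h2 : ∑ k : Fin n, Bm v i k.succ * kv (Bm v) k.succ = v 0 * kv (Bm v) i.succ := by
      rw [Finset.sum_eq_single i]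
      · unfold Bm
        rw [if_neg (Fin.succ_ne_zero i), if_pos rfl]
      · intro k _ hk
        have h3 : Bm v i k.succ = 0 := by
          unfold Bm
          rw [if_neg (Fin.succ_ne_zero k), if_neg (fun h' => hk (Fin.succ_injective _ h'))]
        rw [h3, zero_mul]
      · intro h
        exact absurd (Finset.mem_univ i) h
    have h3 : Bm v i 0 = - v i.succ := by
      unfold Bm
      rw [if_pos rfl]
    rw [h2, h3, h0] at h1
    field_simp
    linear_combination h1

/-- the minors as polynomials -/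
noncomputable def KV (K : Type) [Field K] (n : ℕ) (j : Fin (n + 1)) :
    MvPolynomial (Fin n × Fin (n + 1)) K :=
  (-1) ^ (j : ℕ) * (Matrix.of fun i k : Fin n =>
    (MvPolynomial.X (i, j.succAbove k) : MvPolynomial (Fin n × Fin (n + 1)) K)).det

theorem aeval_KV {K A : Type} [Field K] [Field A] [Algebra K A] {n : ℕ}
    (B : Fin n → Fin (n + 1) → A) (F : MvPolynomial (Fin (n + 1)) K) :
    MvPolynomial.aeval (fun p : Fin n × Fin (n + 1) => B p.1 p.2)
      (MvPolynomial.bind₁ (KV K n) F) = MvPolynomial.aeval (kv B) F := by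
  have h4 : ∀ j, MvPolynomial.aeval (fun p : Fin n × Fin (n + 1) => B p.1 p.2) (KV K n j) =
      kv B j := by
    intro j
    unfold KV kv
    rw [map_mul, map_pow, map_neg, map_one, AlgHom.map_det, AlgHom.mapMatrix_apply]
    have e1 : (Matrix.of fun i k : Fin n =>
        (MvPolynomial.X (i, j.succAbove k) : MvPolynomial (Fin n × Fin (n + 1)) K)).map
        (MvPolynomial.aeval (R := K) (fun p : Fin n × Fin (n + 1) => B p.1 p.2)) =
        Matrix.of fun i k : Fin n => B i (j.succAbove k) := by
      ext i k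
      exact MvPolynomial.aeval_X _ _
    rw [e1]
  rw [MvPolynomial.aeval_bind₁]
  simp only [h4]

theorem gvk : GVKStmt := by
  intro K L _ _ _ _ n u hu
  refine ⟨fun i => kv_ker u i, ?_⟩
  intro d F hF hF0
  have h2 : MvPolynomial.bind₁ (KV K n) F ≠ 0 := by
    have h3 : F * MvPolynomial.X 0 ≠ 0 := mul_ne_zero hF0 (MvPolynomial.X_ne_zero 0)
    obtain ⟨v, hv⟩ : ∃ v : Fin (n + 1) → K, MvPolynomial.eval v (F * MvPolynomial.X 0) ≠ 0 := by
      by_contra h
      push Not at h
      apply h3
      apply MvPolynomial.funext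
      intro v
      rw [h v, map_zero]
    rw [map_mul, MvPolynomial.eval_X] at hv
    obtain ⟨c, hc, hk⟩ := kv_Bm v (right_ne_zero_of_mul hv)
    intro h
    have h4 := aeval_KV (K := K) (Bm v) F
    rw [h, map_zero, hk] at h4
    have h5 : MvPolynomial.aeval (fun j => c * v j) F = MvPolynomial.eval (fun j => c * v j) F :=
      rfl
    rw [h5, eval_smul hF] at h4
    exact mul_ne_zero (pow_ne_zero _ hc) (left_ne_zero_of_mul hv) h4.symm
  rw [← aeval_KV]
  intro h
  apply h2
  have h4 : Function.Injective (MvPolynomial.aeval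
      (fun p : Fin n × Fin (n + 1) => u p.1 p.2) : MvPolynomial _ K →ₐ[K] L) := hu
  apply h4
  rw [h, map_zero]

end Pool.Agent.ZAR.H32
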